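import Mathlib
import Pool.Agent.BRW.Shape

/-!
MP_1cd8c4_pr, negative answer: two reproduction laws in dimension one with the same asymptotic
shape `[-1, 1]` for which coexistence has probability zero, whatever the tie-breaking rule.
Red: four children per particle, blue: two children per particle, both with uniform
nearest-neighbour displacements.
-/

open MeasureTheory ProbabilityTheory Filter Topology
open scoped ENNReal Pointwise

namespace Pool.Agent.Results.MP_1cd8c4_pr.NoCoexistence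

open Pool.Agent.BRW

lemma half (s : ℤ) (hs : s = 1 ∨ s = -1) {ω₁ ω₂ : Env 1} (h1 : Unitary ω₁) (h2 : Unitary ω₂)
    (hr : ∃ v, Alive ω₁ v ∧ ∀ n, subAt ω₁ v ∉ nol s n)
    (hb : ∀ v, ∃ n, subAt ω₂ v ∈ nol s n) :
    ∃ M : ℤ, ∀ x : Fin 1 → ℤ, M ≤ s * x 0 → hit ω₁ 0 x < hit ω₂ (e₁ 0) x := by
  obtain ⟨v, hv, hline⟩ := hr
  obtain ⟨N, hN⟩ := cnt_large s (v.length + 1) ω₂ hb
  have hss : s * s = 1 := by rcases hs with rfl | rfl <;> norm_num
  have hs1 : s ≤ 1 := by rcases hs with rfl | rfl <;> norm_num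
  refine ⟨max (v.length : ℤ) ((N : ℤ) + 1), fun x hx => ?_⟩
  have hx1 : (v.length : ℤ) ≤ s * x 0 := (le_max_left _ _).trans hx
  have hx2 : (N : ℤ) + 1 ≤ s * x 0 := (le_max_right _ _).trans hx
  have hcv := cnt_le s ω₁ v
  -- the red walk arrives early
  obtain ⟨T, hT⟩ : ∃ T : ℕ, (T : ℤ) = s * x 0 + 2 * (cnt s ω₁ v : ℤ) :=
    ⟨(s * x 0 + 2 * (cnt s ω₁ v : ℤ)).toNat, Int.toNat_of_nonneg (by omega)⟩
  have hTv : v.length ≤ T := by omega
  obtain ⟨w, hw1, hw2, hw3⟩ := exists_of_notMem_nol s (T - v.length) _ (hline (T - v.length))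
  have hocc : Occupied ω₁ 0 T x := by
    refine ⟨v ++ w, ?_, ?_, ?_⟩
    · rw [List.length_append, hw1]; omega
    · rw [alive_append]; exact ⟨hv, hw2⟩
    · funext i
      have hi : i = 0 := Subsingleton.elim _ _
      rw [hi, pos_eq s hs h1, cnt_append, List.length_append, hw1, hw3]
      have e1 : ((v.length + (T - v.length) : ℕ) : ℤ) = T := by
        rw [Nat.add_sub_cancel' hTv]
      rw [e1, hT, Pi.zero_apply]
      have : s * (s * x 0) = x 0 := by rw [← mul_assoc, hss, one_mul]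
      push_cast
      linear_combination this
  have hle : hit ω₁ 0 x ≤ (T : ℕ∞) := iInf₂_le T hocc
  refine lt_of_le_of_lt hle ?_
  have hge : ((T + 1 : ℕ) : ℕ∞) ≤ hit ω₂ (e₁ 0) x := by
    refine le_iInf₂ fun n hn => ?_
    obtain ⟨u, hu1, hu2, hu3⟩ := hn
    have hp := pos_eq s hs h2 (e₁ 0) u
    have he : (e₁ 0) 0 = 1 := by simp [e₁]
    rw [hu3, hu1, he] at hp
    have hp2 : s * x 0 = s + ((n : ℤ) - 2 * (cnt s ω₂ u : ℤ)) := by
      rw [hp, mul_add, mul_one, ← mul_assoc, hss, one_mul]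
    have hNn : N ≤ u.length := by
      rw [hu1]; omega
    have hc := hN u hu2 hNn
    have : T + 1 ≤ n := by omega
    exact_mod_cast this
  refine lt_of_lt_of_le ?_ hge
  exact_mod_cast Nat.lt_succ_self T

/-- There are two reproduction laws in dimension one with a common asymptotic shape such that,
under the law of the two-type process with `p = 0`, almost surely there is no way to resolve the
ties that gives coexistence: `P₀(C) = 0` for every tie-breaking rule. -/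
theorem result : ∃ (Rr Rb : ReproLaw 1) (A : Set (Fin 1 → ℝ)),
    IsShape Rr A ∧ IsShape Rb A ∧
      twoTypeLaw (d := 0) Rr Rb {ω | ∃ tie : (Fin 1 → ℤ) → Bool, Coexist ω tie} = 0 := by
  refine ⟨walkLaw 4 (by norm_num), walkLaw 2 le_rfl, seg, isShape_walkLaw _ _,
    isShape_walkLaw _ _, ?_⟩
  have hr : ∀ᵐ ω ∂(envLaw (walkLaw 4 (by norm_num))), Unitary ω ∧
      (∃ v, Alive ω v ∧ ∀ n, subAt ω v ∉ nol 1 n) ∧
      (∃ v, Alive ω v ∧ ∀ n, subAt ω v ∉ nol (-1) n) := by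
    filter_upwards [ae_disp 4 (by norm_num), ae_line_four 4 (by norm_num) le_rfl 1 (Or.inl rfl),
      ae_line_four 4 (by norm_num) le_rfl (-1) (Or.inr rfl)] with ω h1 h2 h3
    exact ⟨h1, h2, h3⟩
  have hb : ∀ᵐ ω ∂(envLaw (walkLaw 2 le_rfl)), Unitary ω ∧
      (∀ v, ∃ n, subAt ω v ∈ nol 1 n) ∧ (∀ v, ∃ n, subAt ω v ∈ nol (-1) n) := by
    filter_upwards [ae_disp 2 le_rfl, ae_nol_two 1 (Or.inl rfl), ae_nol_two (-1) (Or.inr rfl)]
      with ω h1 h2 h3
    exact ⟨h1, h2, h3⟩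
  have hr' : ∀ᵐ ω ∂(twoTypeLaw (d := 0) (walkLaw 4 (by norm_num)) (walkLaw 2 le_rfl)),
      Unitary ω.1 ∧ (∃ v, Alive ω.1 v ∧ ∀ n, subAt ω.1 v ∉ nol 1 n) ∧
      (∃ v, Alive ω.1 v ∧ ∀ n, subAt ω.1 v ∉ nol (-1) n) :=
    Measure.quasiMeasurePreserving_fst.ae hr
  have hb' : ∀ᵐ ω ∂(twoTypeLaw (d := 0) (walkLaw 4 (by norm_num)) (walkLaw 2 le_rfl)),
      Unitary ω.2 ∧ (∀ v, ∃ n, subAt ω.2 v ∈ nol 1 n) ∧ (∀ v, ∃ n, subAt ω.2 v ∈ nol (-1) n) :=
    Measure.quasiMeasurePreserving_snd.ae hb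
  have hfin : ∀ᵐ ω ∂(twoTypeLaw (d := 0) (walkLaw 4 (by norm_num)) (walkLaw 2 le_rfl)),
      ¬ ∃ tie : (Fin 1 → ℤ) → Bool, Coexist ω tie := by
    filter_upwards [hr', hb'] with ω ⟨h1, h2, h3⟩ ⟨h4, h5, h6⟩
    obtain ⟨M1, hM1⟩ := half 1 (Or.inl rfl) h1 h4 h2 h5
    obtain ⟨M2, hM2⟩ := half (-1) (Or.inr rfl) h1 h4 h3 h6
    rintro ⟨tie, hC⟩
    refine hC.2 ?_
    have hsub : BlueSites ω tie ⊆ (fun x : Fin 1 → ℤ => x 0) ⁻¹' (Set.Icc (-M2) M1) := by
      intro x hx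
      have hnot : ¬ hit ω.1 0 x < hit ω.2 (e₁ 0) x := by
        rcases hx with h | h
        · exact not_lt.2 h.le
        · exact not_lt.2 h.1.ge
      have a1 : ¬ M1 ≤ 1 * x 0 := fun h => hnot (hM1 x h)
      have a2 : ¬ M2 ≤ -1 * x 0 := fun h => hnot (hM2 x h)
      show -M2 ≤ x 0 ∧ x 0 ≤ M1
      omega
    refine Set.Finite.subset (Set.Finite.preimage ?_ (Set.finite_Icc (-M2) M1)) hsub
    intro x _ y _ hxy
    funext i
    have hi : i = 0 := Subsingleton.elim (α := Fin 1) _ _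
    rw [hi]; exact hxy
  have := ae_iff.1 hfin
  simpa only [not_not] using this

end Pool.Agent.Results.MP_1cd8c4_pr.NoCoexistence
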